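import Pool.Agent.Y300.LC.Stm

/-!
# From independent parameters to conjugate parameters
-/

set_option autoImplicit false

namespace Pool.Agent.Y151.LC

open Pool.Agent.Y300.LC MvPolynomial
open scoped ComplexConjugate

/-- Every entry of the two families is a polynomial in the parameters. -/
theorem fam_poly (hp : S_POLY) (N : ℕ) (hN : 2 ≤ N) (i : J N ⊕ J N) (m : ℕ) :
    ∃ P : MvPolynomial (Fin 4) ℂ, ∀ p q p' q' : ℂ, fam N p q p' q' i m =
      eval ![p, q, p', q'] P := by
  have key : ∀ j k : ℕ, (∃ P : MvPolynomial (Fin 4) ℂ, ∀ p q p' q' : ℂ,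
      A N p q j m * B N p' q' k m = eval ![p, q, p', q'] P) ∧
      ∃ P : MvPolynomial (Fin 4) ℂ, ∀ p q p' q' : ℂ,
      A N p' q' j m * B N p q k m = eval ![p, q, p', q'] P := by
    intro j k
    obtain ⟨PA, hA⟩ := (hp N j m hN).1
    obtain ⟨PB, hB⟩ := (hp N k m hN).2
    have e1 : ∀ p q p' q' : ℂ, (![p, q, p', q'] ∘ (![0, 1] : Fin 2 → Fin 4)) = ![p, q] := by
      intro p q p' q'
      funext i
      fin_cases i <;> rfl
    have e2 : ∀ p q p' q' : ℂ, (![p, q, p', q'] ∘ (![2, 3] : Fin 2 → Fin 4)) = ![p', q'] := by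
      intro p q p' q'
      funext i
      fin_cases i <;> rfl
    refine ⟨⟨rename ![0, 1] PA * rename ![2, 3] PB, fun p q p' q' => ?_⟩,
      ⟨rename ![2, 3] PA * rename ![0, 1] PB, fun p q p' q' => ?_⟩⟩
    · rw [map_mul, eval_rename, eval_rename, e1, e2, hA, hB]
    · rw [map_mul, eval_rename, eval_rename, e1, e2, hA, hB]
  rcases i with x | x
  · exact (key x.1.1 x.1.2).1
  · exact (key x.1.1 x.1.2).2

/-- From independent parameters to conjugate parameters. -/
theorem conj_all (hc : S_CORE) (hp : S_POLY) (hm : S_MINOR) (hz : S_ZAR) : S_CONJ := by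
  classical
  intro N hN
  obtain ⟨p, q, p', q', hrk⟩ := hc N hN
  -- an independent subfamily
  obtain ⟨b, hbs, hbspan, hb⟩ := exists_linearIndependent ℂ (Set.range (fam N p q p' q'))
  haveI : Fintype b := ((Set.finite_range (fam N p q p' q')).subset hbs).fintype
  have hcard : Fintype.card b = rk N p q p' q' := by
    unfold rk
    rw [← hbspan]
    have h1 := finrank_span_eq_card hb
    rw [Subtype.range_coe] at h1
    exact h1.symm
  let eqv : Fin (Fintype.card b) ≃ b := (Fintype.equivFin b).symm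
  obtain ⟨d, hd⟩ : ∃ d, d = Fintype.card b := ⟨_, rfl⟩
  choose e he using fun j => hbs (eqv j).2
  have hli : LinearIndependent ℂ (fun j => fam N p q p' q' (e j)) := by
    have h1 := hb.comp eqv eqv.injective
    have h2 : (fun j => fam N p q p' q' (e j)) = ((fun x : b => (x : ℕ → ℂ)) ∘ eqv) := by
      funext j
      exact he j
    rw [h2]
    exact h1
  obtain ⟨x, hx⟩ := hm ℂ ℕ _ _ hli
  choose P hP using fun i m => fam_poly hp N (by omega) i m
  let D : MvPolynomial (Fin 4) ℂ := (Matrix.of fun i j => P (e i) (x j)).det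
  have hD : ∀ p q p' q' : ℂ, eval ![p, q, p', q'] D =
      (Matrix.of fun i j => fam N p q p' q' (e i) (x j)).det := by
    intro p q p' q'
    show eval ![p, q, p', q'] (Matrix.of fun i j => P (e i) (x j)).det = _
    rw [RingHom.map_det]
    congr 1
    ext i j
    rw [RingHom.mapMatrix_apply, Matrix.map_apply, Matrix.of_apply, Matrix.of_apply, hP]
  have hD0 : D ≠ 0 := by
    intro h
    apply hx
    have := hD p q p' q'
    rw [h, map_zero] at this
    exact this.symm
  obtain ⟨p₁, q₁, h1⟩ := hz (D * X 1) (mul_ne_zero hD0 (X_ne_zero _))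
  rw [map_mul, eval_X] at h1
  have hq : q₁ ≠ 0 := right_ne_zero_of_mul h1
  have hDne : (Matrix.of fun i j => fam N p₁ q₁ (conj p₁) (conj q₁) (e i) (x j)).det ≠ 0 := by
    rw [← hD]
    exact left_ne_zero_of_mul h1
  refine ⟨p₁, q₁, hq, hrk.trans ?_⟩
  rw [← hcard]
  unfold rk
  have hfin : (Set.range (fam N p₁ q₁ (conj p₁) (conj q₁))).Finite := Set.finite_range _
  haveI : FiniteDimensional ℂ (Submodule.span ℂ (Set.range (fam N p₁ q₁ (conj p₁) (conj q₁)))) :=
    FiniteDimensional.span_of_finite ℂ hfin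
  let g : Fin (Fintype.card b) →
      Submodule.span ℂ (Set.range (fam N p₁ q₁ (conj p₁) (conj q₁))) :=
    fun i => ⟨fam N p₁ q₁ (conj p₁) (conj q₁) (e i), Submodule.subset_span ⟨_, rfl⟩⟩
  have hg : LinearIndependent ℂ g := by
    apply LinearIndependent.of_comp (Submodule.subtype _)
    rw [Fintype.linearIndependent_iff]
    intro c hc0
    have h3 : Matrix.vecMul c
        (Matrix.of fun i j => fam N p₁ q₁ (conj p₁) (conj q₁) (e i) (x j)) = 0 := by
      funext j
      have h4 := congrFun hc0 (x j)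
      rw [Finset.sum_apply] at h4
      simpa [Matrix.vecMul, dotProduct, g] using h4
    have h5 := Matrix.eq_zero_of_vecMul_eq_zero hDne h3
    exact fun i => congrFun h5 i
  have := hg.fintype_card_le_finrank
  rwa [Fintype.card_fin] at this

end Pool.Agent.Y151.LC
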