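import Pool.Agent.Y300.LC.Stm

/-!
# Nonzero minors and semicontinuity of the rank
-/

set_option autoImplicit false

namespace Pool.Agent.Y151.LC

open Pool.Agent.Y300.LC Filter Topology

/-- Independent functions have a nonzero minor. -/
theorem minor_all : S_MINOR := by
  classical
  intro K _ X d v hv
  let E : X → (Fin d → K) := fun x i => v i x
  have hspan : Submodule.span K (Set.range E) = ⊤ := by
    by_contra hne
    obtain ⟨f, hf0, hf⟩ := Submodule.exists_le_ker_of_lt_top _ (lt_top_iff_ne_top.2 hne)
    apply hf0
    have hc : ∀ i, f (Pi.single i 1) = 0 := by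
      have h1 := Fintype.linearIndependent_iff.1 hv (fun i => f (Pi.single i 1)) (by
        funext x
        rw [Finset.sum_apply, Pi.zero_apply]
        have h2 : f (E x) = 0 := hf (Submodule.subset_span ⟨x, rfl⟩)
        have h3 : E x = ∑ i, E x i • (Pi.single i (1 : K) : Fin d → K) := by
          funext k
          rw [Finset.sum_apply]
          simp [Pi.single_apply]
        rw [h3, map_sum] at h2
        rw [← h2]
        refine Finset.sum_congr rfl fun i _ => ?_
        rw [map_smul, Pi.smul_apply, smul_eq_mul, smul_eq_mul, mul_comm])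
      exact h1
    ext i
    simpa using hc i
  obtain ⟨b, hbs, hbspan, hb⟩ := exists_linearIndependent K (Set.range E)
  rw [hspan] at hbspan
  let Bs : Module.Basis b K (Fin d → K) := Module.Basis.mk hb (by
    rw [Subtype.range_coe, hbspan])
  haveI : Fintype b := FiniteDimensional.fintypeBasisIndex Bs
  have hcard : Fintype.card b = Fintype.card (Fin d) := by
    rw [← Module.finrank_eq_card_basis Bs, Module.finrank_fintype_fun_eq_card]
  let eq : Fin d ≃ b := (Fintype.equivOfCardEq hcard).symm
  choose x hx using fun j => hbs (eq j).2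
  refine ⟨x, ?_⟩
  have hrow : LinearIndependent K (fun j => (eq j : Fin d → K)) := hb.comp eq eq.injective
  have hM : (Matrix.of fun i j => v i (x j)) =
      (Matrix.of fun j => ((eq j : b) : Fin d → K)).transpose := by
    ext i j
    rw [Matrix.transpose_apply, Matrix.of_apply, Matrix.of_apply, ← hx j]
  rw [hM, Matrix.det_transpose]
  have hu := Matrix.linearIndependent_rows_iff_isUnit.1
    (show LinearIndependent K (Matrix.of fun j => ((eq j : b) : Fin d → K)).row from hrow)
  exact ((Matrix.isUnit_iff_isUnit_det _).1 hu).ne_zero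

/-- Semicontinuity of the rank. -/
theorem lim_all (h : S_MINOR) : S_LIM := by
  classical
  intro ι _ S G hfd hmem hcont hli
  let e := Fintype.equivFin ι
  obtain ⟨x, hx⟩ := h ℂ ℕ (Fintype.card ι) (fun i => G 0 (e.symm i))
    (hli.comp e.symm e.symm.injective)
  have hc : ContinuousAt (fun s : ℂ => (Matrix.of fun i j => G s (e.symm i) (x j)).det) 0 := by
    have h1 : Continuous fun M : Matrix (Fin (Fintype.card ι)) (Fin (Fintype.card ι)) ℂ => M.det :=
      continuous_id.matrix_det
    have h2 : ContinuousAt (fun s : ℂ => (Matrix.of fun i j => G s (e.symm i) (x j) :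
        Matrix (Fin (Fintype.card ι)) (Fin (Fintype.card ι)) ℂ)) 0 := by
      refine continuousAt_pi.2 fun i => continuousAt_pi.2 fun j => ?_
      exact hcont (e.symm i) (x j)
    exact ContinuousAt.comp (f := fun s : ℂ => (Matrix.of fun i j => G s (e.symm i) (x j) :
        Matrix (Fin (Fintype.card ι)) (Fin (Fintype.card ι)) ℂ)) h1.continuousAt h2
  have hev := hc.eventually_ne hx
  obtain ⟨s, hs, hs0⟩ := ((hev.filter_mono nhdsWithin_le_nhds).and
    (self_mem_nhdsWithin (s := {(0 : ℂ)}ᶜ) (a := (0 : ℂ)))).exists
  refine ⟨s, hs0, ?_⟩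
  haveI := hfd s
  let g : Fin (Fintype.card ι) → S s := fun i => ⟨G s (e.symm i), hmem s hs0 _⟩
  have hg : LinearIndependent ℂ g := by
    apply LinearIndependent.of_comp (S s).subtype
    rw [Fintype.linearIndependent_iff]
    intro c hc0
    have h3 : Matrix.vecMul c (Matrix.of fun i j => G s (e.symm i) (x j)) = 0 := by
      funext j
      have h4 := congrFun hc0 (x j)
      rw [Finset.sum_apply] at h4
      simpa [Matrix.vecMul, dotProduct, g] using h4
    have h5 := Matrix.eq_zero_of_vecMul_eq_zero hs h3
    exact fun i => congrFun h5 i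
  have := hg.fintype_card_le_finrank
  rwa [Fintype.card_fin] at this

end Pool.Agent.Y151.LC
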